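import Mathlib

/-!
# A sequentially pseudocompact Boolean group which is not selectively sequentially pseudocompact

The group `G` is a dense subgroup of `{0,1}^κ` which projects onto every countable subproduct (so `G`
is sequentially pseudocompact), and such that every sequence `x n ∈ G`, `n ∈ ℕ`, with `x n (a i) = 0`
for `i < n` and `x n (a n) = 1` has a coordinate at which it takes both values on infinitely many
members of any given subsequence. The coordinates and the generators of `G` are indexed by the
countably branching well-founded trees `Tr`: a tree `ξ` codes a countable set of coordinates together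
with values that are prescribed to the generator `ξ` there, and a tree `α` codes a sequence of finite
sets of generators, on which the coordinate `α` is chosen to be `0, 1, 0, 1, …` if possible. The two
requirements are never in conflict, because codes are proper subtrees. No set-theoretic
hypotheses are used.
-/

set_option autoImplicit false

open Set Filter Topology

namespace Pool.Agent.Results.MP_3c9c51_gt.BooleanExample

/-- `X` is sequentially pseudocompact. -/
def SequentiallyPseudocompact (X : Type*) [TopologicalSpace X] : Prop :=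
  ∀ U : ℕ → Set X, (∀ n, IsOpen (U n) ∧ (U n).Nonempty) →
    ∃ J : Set ℕ, J.Infinite ∧ ∃ x : X, ∀ W : Set X, IsOpen W → x ∈ W →
      {n ∈ J | W ∩ U n = ∅}.Finite

/-- `X` is selectively sequentially pseudocompact. -/
def SelectivelySequentiallyPseudocompact (X : Type*) [TopologicalSpace X] : Prop :=
  ∀ U : ℕ → Set X, (∀ n, IsOpen (U n) ∧ (U n).Nonempty) →
    ∃ x : ℕ → X, (∀ n, x n ∈ U n) ∧
      ∃ φ : ℕ → ℕ, StrictMono φ ∧ ∃ y : X, Tendsto (x ∘ φ) atTop (𝓝 y)

/-- Countably branching well-founded trees whose nodes carry a sequence of natural numbers. -/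
inductive Tr : Type
  | leaf : Tr
  | node : (ℕ → ℕ) → (ℕ → Tr) → Tr

/-- `x` is an immediate subtree of `y`. -/
def Sub (x : Tr) : Tr → Prop
  | Tr.leaf => False
  | Tr.node _ f => ∃ n, f n = x

theorem acc_sub (x : Tr) : Acc Sub x := by
  induction x with
  | leaf => exact ⟨_, fun y hy => False.elim hy⟩
  | node l f ih =>
    refine ⟨_, fun y hy => ?_⟩
    obtain ⟨n, rfl⟩ := hy
    exact ih n

theorem sub_asymm {x y : Tr} (h : Sub x y) (h' : Sub y x) : False :=
  WellFounded.asymmetric (WellFounded.intro acc_sub) x y h h'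

open Classical in
/-- The `k`-th finite set coded by a tree. -/
noncomputable def fin : Tr → ℕ → Finset Tr
  | Tr.leaf, _ => ∅
  | Tr.node l f, k => (Finset.range (l k)).image fun i => f (Nat.pair k i)

theorem sub_of_mem_fin {ξ α : Tr} {k : ℕ} (h : ξ ∈ fin α k) : Sub ξ α := by
  cases α with
  | leaf => simp [fin] at h
  | node l f =>
    simp only [fin, Finset.mem_image] at h
    obtain ⟨i, -, rfl⟩ := h
    exact ⟨_, rfl⟩

theorem exists_code (F : ℕ → Finset Tr) : ∃ α : Tr, ∀ k, fin α k = F k := by
  classical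
  refine ⟨Tr.node (fun k => (F k).card)
    (fun m => (F m.unpair.1).toList.getD m.unpair.2 Tr.leaf), fun k => ?_⟩
  ext x
  simp only [fin, Finset.mem_image, Finset.mem_range, Nat.unpair_pair]
  constructor
  · rintro ⟨i, hi, rfl⟩
    have hi' : i < (F k).toList.length := by rwa [Finset.length_toList]
    rw [List.getD_eq_getElem _ _ hi']
    exact Finset.mem_toList.1 (List.getElem_mem hi')
  · intro hx
    obtain ⟨i, hi, hix⟩ := List.mem_iff_getElem.1 (Finset.mem_toList.2 hx)
    refine ⟨i, by rwa [Finset.length_toList] at hi, ?_⟩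
    rw [List.getD_eq_getElem _ _ hi, hix]

/-- `s` takes the values `0, 1, 0, 1, …` at the finite sets coded by `α`. -/
def Good (α : Tr) (s : Tr → ZMod 2) : Prop := ∀ k : ℕ, ∑ ξ ∈ fin α k, s ξ = (k : ZMod 2)

open Classical in
/-- A function as in `Good` if there is one. -/
noncomputable def spl (α : Tr) : Tr → ZMod 2 := if h : ∃ s, Good α s then h.choose else 0

open Classical in
/-- The value of the generator `ξ` at the coordinate `α`. -/
noncomputable def M (α : Tr) : Tr → ZMod 2
  | Tr.leaf => spl α Tr.leaf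
  | Tr.node l f => if h : ∃ n, f n = α then (l (Nat.find h) : ZMod 2) else spl α (Tr.node l f)

theorem M_of_not_sub {α ξ : Tr} (h : ¬ Sub α ξ) : M α ξ = spl α ξ := by
  cases ξ with
  | leaf => rfl
  | node l f =>
    have h' : ¬ ∃ n, f n = α := h
    simp only [M]
    rw [dif_neg h']

/-- The group `{0,1}^κ`. -/
abbrev P : Type := Tr → ZMod 2

/-- The group generated by the generators. -/
noncomputable def GS : Submodule (ZMod 2) P := Submodule.span (ZMod 2) (range fun ξ : Tr => fun α => M α ξ)

/-- The example. -/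
abbrev G : Type := GS

/-- The generator `ξ` as an element of `G`. -/
noncomputable def gen (ξ : Tr) : G := ⟨fun α => M α ξ, Submodule.subset_span ⟨ξ, rfl⟩⟩

/-- `G` projects onto all countable subproducts. -/
theorem exists_ext (a : ℕ → Tr) (v : Tr → ZMod 2) : ∃ g : G, ∀ n, g.1 (a n) = v (a n) := by
  classical
  refine ⟨gen (Tr.node (fun n => (v (a n)).val) a), fun n => ?_⟩
  change M (a n) (Tr.node (fun n => (v (a n)).val) a) = v (a n)
  have h : ∃ m, a m = a n := ⟨n, rfl⟩
  simp only [M]
  rw [dif_pos h, Nat.find_spec h, ZMod.natCast_val, ZMod.cast_id]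

theorem exists_ext_finset (E : Finset Tr) (v : Tr → ZMod 2) :
    ∃ g : G, ∀ α ∈ E, g.1 α = v α := by
  classical
  obtain ⟨g, hg⟩ := exists_ext (fun n => E.toList.getD n Tr.leaf) v
  refine ⟨g, fun α hα => ?_⟩
  obtain ⟨i, hi, hiα⟩ := List.mem_iff_getElem.1 (Finset.mem_toList.2 hα)
  have := hg i
  rw [List.getD_eq_getElem _ _ hi, hiα] at this
  exact this

/-- Basic neighbourhoods. -/
theorem exists_basic {W : Set G} (hW : IsOpen W) {x : G} (hx : x ∈ W) :
    ∃ E : Finset Tr, ∀ g : G, (∀ α ∈ E, g.1 α = x.1 α) → g ∈ W := by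
  obtain ⟨V, hV, rfl⟩ := isOpen_induced_iff.1 hW
  obtain ⟨E, u, hu, hsub⟩ := isOpen_pi_iff.1 hV x.1 hx
  refine ⟨E, fun g hg => hsub fun α hα => ?_⟩
  rw [hg α hα]
  exact (hu α hα).2

theorem isOpen_basic (E : Finset Tr) (v : Tr → ZMod 2) : IsOpen {g : G | ∀ α ∈ E, g.1 α = v α} := by
  have : {g : G | ∀ α ∈ E, g.1 α = v α} = ⋂ α ∈ E, {g : G | g.1 α = v α} := by
    ext g; simp
  rw [this]
  refine isOpen_biInter_finset fun α _ => ?_
  have hc : Continuous fun g : G => g.1 α := (continuous_apply α).comp continuous_subtype_val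
  exact (isOpen_discrete {v α}).preimage hc

theorem sequentiallyPseudocompact : SequentiallyPseudocompact G := by
  classical
  intro U hU
  choose y hy using fun n => (hU n).2
  choose F hF using fun n => exists_basic (hU n).1 (hy n)
  -- an enumeration of all coordinates involved
  have hc : (⋃ n, (F n : Set Tr)).Countable := countable_iUnion fun n => (F n).countable_toSet
  obtain ⟨a, ha⟩ : ∃ a : ℕ → Tr, ⋃ n, (F n : Set Tr) ⊆ range a := by
    rcases (⋃ n, (F n : Set Tr)).eq_empty_or_nonempty with h | h
    · exact ⟨fun _ => Tr.leaf, by rw [h]; exact empty_subset _⟩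
    · obtain ⟨a, ha⟩ := hc.exists_eq_range h
      exact ⟨a, ha.le⟩
  obtain ⟨z, -, φ, hφ, hz⟩ := (isCompact_univ (X := ℕ → ZMod 2)).isSeqCompact
    (x := fun n i => (y n).1 (a i)) (fun _ => mem_univ _)
  rw [tendsto_pi_nhds] at hz
  have hz' : ∀ i, ∀ᶠ n in atTop, (y (φ n)).1 (a i) = z i := by
    intro i
    have h1 := hz i
    rw [nhds_discrete, tendsto_pure] at h1
    exact h1
  let v : Tr → ZMod 2 := fun α => if h : ∃ i, a i = α then z h.choose else 0
  have hv : ∀ i, v (a i) = z i := by
    intro i
    have h : ∃ j, a j = a i := ⟨i, rfl⟩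
    simp only [v]
    rw [dif_pos h]
    obtain ⟨n, h1, h2⟩ := ((hz' h.choose).and (hz' i)).exists
    rw [← h1, ← h2, h.choose_spec]
  obtain ⟨x, hx⟩ := exists_ext a v
  refine ⟨range φ, infinite_range_of_injective hφ.injective, x, fun W hW hxW => ?_⟩
  obtain ⟨E, hE⟩ := exists_basic hW hxW
  -- the members of `E` among the coordinates
  have hev : ∀ᶠ n in atTop, ∀ α ∈ E, (∃ i, a i = α) → (y (φ n)).1 α = x.1 α := by
    rw [Filter.eventually_all_finset]
    intro α _
    by_cases h : ∃ i, a i = α
    · obtain ⟨i, rfl⟩ := h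
      filter_upwards [hz' i] with n hn _
      rw [hn, hx i, hv i]
    · exact Eventually.of_forall fun n h' => absurd h' h
  obtain ⟨N, hN⟩ := eventually_atTop.1 hev
  refine ((finite_lt_nat N).image φ).subset ?_
  rintro _ ⟨⟨n, rfl⟩, hn⟩
  refine ⟨n, ?_, rfl⟩
  by_contra hnN
  have hnN' : N ≤ n := not_lt.1 hnN
  obtain ⟨g, hg⟩ := exists_ext_finset (E ∪ F (φ n))
    (fun α => if α ∈ F (φ n) then (y (φ n)).1 α else x.1 α)
  have hgU : g ∈ U (φ n) := by
    refine hF _ g fun α hα => ?_
    rw [hg α (Finset.mem_union_right _ hα), if_pos hα]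
  have hgW : g ∈ W := by
    refine hE g fun α hα => ?_
    rw [hg α (Finset.mem_union_left _ hα)]
    split_ifs with h
    · obtain ⟨i, hi⟩ := ha (mem_iUnion.2 ⟨φ n, h⟩)
      exact hN n hnN' α hα ⟨i, hi⟩
    · rfl
  have : g ∈ W ∩ U (φ n) := ⟨hgW, hgU⟩
  rw [hn] at this
  exact this

/-- Distinct coordinates. -/
def a (n : ℕ) : Tr := Tr.node (fun _ => n) fun _ => Tr.leaf

theorem a_inj {m n : ℕ} (h : a m = a n) : m = n := by
  injection h with h1 _
  exact congrFun h1 0

/-- The open sets. -/
def UU (n : ℕ) : Set G := {g | (∀ i < n, g.1 (a i) = 0) ∧ g.1 (a n) = 1}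

open Classical in
theorem UU_open (n : ℕ) : IsOpen (UU n) ∧ (UU n).Nonempty := by
  have h1 : UU n = {g : G | ∀ α ∈ (Finset.range (n + 1)).image a,
      g.1 α = if α = a n then 1 else 0} := by
    ext g
    simp only [UU, mem_ofPred_eq, Finset.mem_image, Finset.mem_range]
    constructor
    · rintro ⟨h1, h2⟩ _ ⟨i, hi, rfl⟩
      split_ifs with h
      · rw [h]; exact h2
      · refine h1 i (lt_of_le_of_ne (by omega) ?_)
        rintro rfl
        exact h rfl
    · intro h
      refine ⟨fun i hi => ?_, ?_⟩
      · rw [h (a i) ⟨i, by omega, rfl⟩, if_neg]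
        intro he
        have := a_inj he
        omega
      · rw [h (a n) ⟨n, by omega, rfl⟩, if_pos rfl]
  rw [h1]
  refine ⟨isOpen_basic _ _, ?_⟩
  exact exists_ext_finset _ _

/-- The finite sums of generators. -/
theorem exists_rep (g : G) : ∃ F : Finset Tr, ∀ α, g.1 α = ∑ ξ ∈ F, M α ξ := by
  obtain ⟨c, hc⟩ := (Finsupp.mem_span_range_iff_exists_finsupp).1 g.2
  refine ⟨c.support, fun α => ?_⟩
  rw [← hc, Finsupp.sum, Finset.sum_apply]
  refine Finset.sum_congr rfl fun ξ hξ => ?_
  have h1 : c ξ ≠ 0 := Finsupp.mem_support_iff.1 hξ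
  have h2 : ∀ z : ZMod 2, z ≠ 0 → z = 1 := by decide
  rw [h2 _ h1, one_smul]

theorem not_selectively : ¬ SelectivelySequentiallyPseudocompact G := by
  classical
  intro h
  obtain ⟨x, hx, φ, hφ, y, hy⟩ := h UU UU_open
  choose F hF using fun k => exists_rep (x (φ k))
  obtain ⟨α, hα⟩ := exists_code F
  -- the finite sums are linearly independent
  let t : ℕ → (Tr →₀ ZMod 2) := fun k => ∑ ξ ∈ F k, Finsupp.single ξ 1
  let ev : Tr → (Tr →₀ ZMod 2) →ₗ[ZMod 2] ZMod 2 := fun β => Finsupp.linearCombination (ZMod 2) (M β)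
  have hev : ∀ β k, ev β (t k) = (x (φ k)).1 β := by
    intro β k
    rw [hF k β]
    simp [ev, t, Finsupp.linearCombination_single]
  have hli : LinearIndependent (ZMod 2) t := by
    rw [linearIndependent_iff]
    intro l hl
    by_contra hne
    have hsup : l.support.Nonempty := Finsupp.support_nonempty_iff.2 hne
    set m := l.support.min' hsup with hm
    have hmem : m ∈ l.support := Finset.min'_mem _ _
    have hl' : ∑ k ∈ l.support, l k • t k = 0 := hl
    have h1 := congrArg (ev (a (φ m))) hl'
    rw [map_zero, map_sum] at h1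
    rw [Finset.sum_eq_single m] at h1
    · rw [map_smul, hev, (hx (φ m)).2, smul_eq_mul, mul_one] at h1
      exact Finsupp.mem_support_iff.1 hmem h1
    · intro k hk hkm
      have hlt : m < k := lt_of_le_of_ne (Finset.min'_le _ _ hk) (Ne.symm hkm)
      rw [map_smul, hev, (hx (φ k)).1 (φ m) (hφ hlt), smul_zero]
    · intro h2
      exact absurd hmem h2
  obtain ⟨L, hL⟩ : ∃ L : (Tr →₀ ZMod 2) →ₗ[ZMod 2] ZMod 2, ∀ k, L (t k) = (k : ZMod 2) := by
    let B := Module.Basis.span hli
    obtain ⟨L, hL⟩ := (B.constr (ZMod 2) fun k : ℕ => (k : ZMod 2)).exists_extend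
    refine ⟨L, fun k => ?_⟩
    have h1 := congrArg (fun f => f (B k)) hL
    simp only [LinearMap.comp_apply, Submodule.subtype_apply, Module.Basis.constr_basis] at h1
    rw [← h1, Module.Basis.span_apply]
  have hgood : Good α (fun ξ => L (Finsupp.single ξ 1)) := by
    intro k
    rw [hα k, ← hL k]
    simp only [t, map_sum]
  have hspl : Good α (spl α) := by
    have hex : ∃ s, Good α s := ⟨_, hgood⟩
    unfold spl
    rw [dif_pos hex]
    exact hex.choose_spec
  have hval : ∀ k, (x (φ k)).1 α = (k : ZMod 2) := by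
    intro k
    rw [hF k α, ← hspl k, hα k]
    refine Finset.sum_congr rfl fun ξ hξ => ?_
    refine M_of_not_sub fun hs => ?_
    rw [← hα k] at hξ
    exact sub_asymm hs (sub_of_mem_fin hξ)
  have hlim : Tendsto (fun k => (x (φ k)).1 α) atTop (𝓝 (y.1 α)) := by
    have hc : Continuous fun g : G => g.1 α := (continuous_apply α).comp continuous_subtype_val
    exact (hc.tendsto y).comp hy
  rw [nhds_discrete, tendsto_pure] at hlim
  obtain ⟨N, hN⟩ := eventually_atTop.1 hlim
  have e1 := hN N le_rfl
  have e2 := hN (N + 1) (by omega)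
  rw [hval] at e1 e2
  rw [← e1] at e2
  push_cast at e2
  have : (1 : ZMod 2) = 0 := by
    have h3 : (N : ZMod 2) + 1 = (N : ZMod 2) + 0 := by rw [e2, add_zero]
    exact add_left_cancel h3
  exact absurd this (by decide)

/-- **Affirmative answer to Q1.** There is (in ZFC, without further hypotheses) an Abelian
Hausdorff topological group, with Tychonoff underlying space and with `x + x = 0` for all `x`, which
is sequentially pseudocompact but not selectively sequentially pseudocompact. -/
theorem result : ∃ (G : Type) (_ : AddCommGroup G) (_ : TopologicalSpace G),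
    IsTopologicalAddGroup G ∧ T2Space G ∧ T35Space G ∧ (∀ x : G, x + x = 0) ∧
      SequentiallyPseudocompact G ∧ ¬ SelectivelySequentiallyPseudocompact G := by
  refine ⟨G, inferInstance, inferInstance, inferInstance, inferInstance, inferInstance, ?_,
    sequentiallyPseudocompact, not_selectively⟩
  intro x
  apply Subtype.ext
  funext α
  change x.1 α + x.1 α = 0
  exact CharTwo.add_self_eq_zero _

end Pool.Agent.Results.MP_3c9c51_gt.BooleanExample
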